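import Pool.Agent.Work.MP_659252_gt.QR.Shift

/-!
# Layered tangent vectors to the space of Zoll metrics of `S^d`: the layers are quadrics

Let `d ≥ 3`. A layered function `f` on the sphere `S^d` (`Layered f T`) describes a nested family of strictly convex
cones `f ≥ s`, `0 < s < T`, in the open half space `x_0 > 0` (in the gnomonic chart: a nested family of compact convex
bodies with smooth strictly curved boundaries), extended to an even function. Let `k` be an even symmetric tensor and
`w` a function (homogeneous of degree `2`); for a profile `B`, smooth with compact support in an interval `(s₁, s₂)` of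
levels, let

`dir f w k B = sign (x_0) (B(f) k + B'(f) w df ⊗ df)`,

an odd tensor on the sphere (for example `w = 0`, `k = g₀`: the conformal tensor `sign (x_0) B(f) g₀`; `k = 0`: the
radial tensor `sign (x_0) B'(f) w df ⊗ df`).

Theorem. Suppose that `dir f w k B` is tangent at the round metric to the space of Zoll metrics, for every such `B`. Let
`s₁ < s < s₂` be a level such that at each of its points the quadratic form `k - w D²f` does not vanish identically on
the vectors tangent to the level set. Then the level set `f = s` is a quadric: the zero set of a quadratic form.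

Conversely, every nested family of quadrics occurs, with `k = 0` and a suitable `w > 0` (`QuadricPaths`).

The definitions are in `Pool.Agent.Work.MP_659252_gt.QR.Defs` (`gr`, `D2`, `Layered`, `SymTen`, `dir`) and in
`Pool.Agent.Work.MP_659252_gt.Z.Defs` (tensors, Zoll metrics, `InT`).
-/

open Pool.Agent.Work.MP_659252_gt.Z (V Ten val InT)
open Pool.Agent.Work.MP_659252_gt.QR (gr D2 Layered SymTen dir)
open scoped ContDiff

namespace Pool.Agent.Results.MP_659252_gt.LayeredRigidity

/-- **The layers of a layered family of tangent vectors to the space of Zoll metrics are quadrics.** -/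
theorem result (d : ℕ) (hd : 3 ≤ d) (f w : V d → ℝ) (k : Ten d) (T : ℝ) (hf : Layered f T)
    (hk : SymTen k {x | 0 < f x ∧ f x < T}) (hw : ContDiffOn ℝ ∞ w {x | 0 < f x ∧ f x < T})
    (hwh : ∀ (c : ℝ) (x : V d), c ≠ 0 → w (c • x) = c ^ 2 * w x) (s₁ s₂ : ℝ) (h₁ : 0 ≤ s₁) (h₂ : s₂ ≤ T)
    (hz : ∀ B : ℝ → ℝ, ContDiff ℝ ∞ B → (∃ lo hi, s₁ < lo ∧ hi < s₂ ∧ ∀ s, s ∉ Set.Icc lo hi → B s = 0) →
      InT (dir f w k B))
    (s : ℝ) (hs : s ∈ Set.Ioo s₁ s₂)
    (hne : ∀ x : V d, f x = s → ∃ v : V d, gr f x ⬝ᵥ v = 0 ∧ val k x v v ≠ w x * D2 f x v) :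
    ∃ A : Fin (d + 1) → Fin (d + 1) → ℝ, (∀ i j, A i j = A j i) ∧
      ∀ x : V d, x ≠ 0 → (f x = s ↔ ∑ i, ∑ j, A i j * (x i * x j) = 0) :=
  Pool.Agent.Work.MP_659252_gt.QR.layered_quadric_loc hd f w k T hf hk hw hwh s₁ s₂ h₁ h₂
    (fun b hb => hz b hb.1 hb.2) s hs.1 hs.2 hne

end Pool.Agent.Results.MP_659252_gt.LayeredRigidity
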