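import Pool.Agent.Work.MP_659252_gt.Y.Fin

/-!
# Nested families of quadratic cones give tangent vectors to the space of Zoll metrics of `S^d`

Let `d ≥ 3` and let `A_s`, `0 < s < T`, be a smooth path of symmetric `(d + 1) × (d + 1)` matrices whose quadratic
forms `Q_s(x, x) = ⟨x, A_s x⟩` are positive on the hyperplane `x_0 = 0` and have a positive definite derivative
`⟨x, A'_s x⟩` in `s`: the cones `Q_s ≤ 0` form a nested family. For `x` in the sphere let `s = lev x` be the largest
`s` with `Q_s(x, x) ≤ 0`, and for a smooth function `B` with compact support in `(0, T)` let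
`conf A T B = 2 sign (x_0) B(s) (A_s x) ⊗ (A_s x) / ⟨x, A'_s x⟩` (and zero where `lev x` is not in the support of `B`);
`A_s x` is normal to the level sets of `lev`.

Then `conf A T B` is the derivative at `t = 0` of a smooth family of Zoll metrics through the round metric. Moreover
let `B ≥ 0`, and let `m` be the infimum of its support, with `A_m` indefinite. If the class of `conf A T B` modulo the
trivial directions contains a tensor which is invariant under an orthogonal map `R`, then `R` commutes with `A_m`.

The definitions are in `Pool.Agent.Work.MP_659252_gt.Y.Defs` (nested families, `lev`, `conf`) and in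
`Pool.Agent.Work.MP_659252_gt.Z.Defs` (Zoll metrics, `InT`, `IsTrivial`, `IsInvariant`).
-/

open Pool.Agent.Work.MP_659252_gt.Z (V Ten val Tan InT IsTrivial IsInvariant)
open Pool.Agent.Work.MP_659252_gt.Y
open scoped ContDiff

namespace Pool.Agent.Results.MP_659252_gt.QuadricPaths

/-- **Tangent vectors to the space of Zoll metrics from nested families of quadratic cones.** -/
theorem result (d : ℕ) (hd : 3 ≤ d) (A : Path d) (T : ℝ) (hA : Nested A T) (B : ℝ → ℝ) (hB : ContDiff ℝ ∞ B)
    (lo hi : ℝ) (hlo : 0 < lo) (hle : lo ≤ hi) (hhi : hi < T) (hsupp : ∀ s, s ∉ Set.Icc lo hi → B s = 0) :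
    InT (conf A T B) ∧
    ((∀ s, 0 ≤ B s) → ∀ m ∈ Set.Ioo 0 T, (∀ s, s ≤ m → B s = 0) →
      (∀ s, m < s → ∃ u ∈ Set.Ioo m s, B u ≠ 0) → (∃ y, Q A m y y < 0) →
      ∀ R ∈ Matrix.orthogonalGroup (Fin (d + 1)) ℝ,
        (∃ h₀ k : Ten d, IsTrivial h₀ ∧ IsInvariant R k ∧
          ∀ x v w, Tan x v → Tan x w → val (conf A T B) x v w = val h₀ x v w + val k x v w) →
        R * Matrix.of (A m) = Matrix.of (A m) * R) :=
  main d hd A T hA B hB lo hi hlo hle hhi hsupp

end Pool.Agent.Results.MP_659252_gt.QuadricPaths
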