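import Pool.Agent.Work.MP_659252_gt.S.Fin

/-!
# The tangent vectors to the space of Zoll metrics of `S^d` are total in the odd tensors

Let `d ≥ 3`, let `T_d` be the set of tangent vectors at the round metric to the space of Zoll metrics of `S^d` (`InT`),
let `τ` be a continuous field of symmetric bilinear forms on `S^d` and let `e` be a point of `S^d`. If `τ` is orthogonal
to all those `h` in `T_d` which are odd under the antipodal map and vanish outside of the caps of size `δ` about `e` and
`-e`, then `τ_{-e} = τ_e` on the tangent vectors at `e`.

In particular (all `e`, `δ = 2`) a continuous `τ` which is orthogonal to `T_d` is even, that is, no nonzero continuous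
odd tensor is orthogonal to `T_d`. As `T_d` is invariant under rotations this means that the linear span of `T_d` is
dense in the space of the smooth odd tensors. The odd tensors together with the trivial directions are all the
solutions of the first-order condition (constant integrals over the great circles), by Michel's theorem, so the
first-order condition is the only linear condition on the elements of `T_d`.

The definitions are in `Pool.Agent.Work.MP_659252_gt.S.Defs` (odd tensors, caps, scalar product of tensors, integral
over the sphere) and `Pool.Agent.Work.MP_659252_gt.Z.Defs` (tensors, Zoll metrics, `InT`).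
-/

open Pool.Agent.Work.MP_659252_gt.Z (V Ten val Tan InT)
open Pool.Agent.Work.MP_659252_gt.S

namespace Pool.Agent.Results.MP_659252_gt.SpanOdd

/-- **The tangent vectors to the space of Zoll metrics are total in the odd tensors.** -/
theorem result (d : ℕ) (hd : 3 ≤ d) (τ : Ten d) (hτ : ContinuousOn τ {x | x ⬝ᵥ x = 1})
    (hs : ∀ x i j, τ x i j = τ x j i) (e : V d) (he : e ⬝ᵥ e = 1) (δ : ℝ) (hδ : 0 < δ)
    (horth : ∀ h : Ten d, InT h → IsOdd h → InCaps e δ h → sint (pair τ h) = 0) :
    ∀ v w, Tan e v → Tan e w → val τ (-e) v w = val τ e v w :=
  main d hd τ hτ hs e he δ hδ horth

end Pool.Agent.Results.MP_659252_gt.SpanOdd
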