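import Pool.Agent.Work.MP_659252_gt.SP.Fin

/-!
# Superpositions of families of quadratic cones: exactly the nested ones are tangent to the Zoll metrics of `S^d`

Let `d ≥ 3`. For finitely many smooth nested families `A_i` (`s ∈ (0, T_i)`) of quadratic cones and profiles `B_i`
(smooth functions with compact support in `(0, T_i)`) consider the sum of the tensors `conf (A_i) (T_i) (B_i)`, each
of which is a tangent vector at the round metric to the space of Zoll metrics (`QuadricPaths`). Suppose that no cone
of one family is a cone of another one. Then the sum is a tangent vector to the space of Zoll metrics for all profiles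
if and only if any two of the families are nested: all the cones of the one are contained in all the cones of the
other.

In particular (two families of cones of revolution about different axes) there are two tangent vectors to the space of
Zoll metrics whose sum is not a tangent vector: the set `T_d` is not closed under addition.

The definitions are in `Pool.Agent.Work.MP_659252_gt.SP.Defs` (`Solid`, `Inside`, `Prof`),
`Pool.Agent.Work.MP_659252_gt.Y.Defs` (nested families, `Q`, `lev`, `conf`) and
`Pool.Agent.Work.MP_659252_gt.Z.Defs` (Zoll metrics, `InT`).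
-/

open Pool.Agent.Work.MP_659252_gt.Z (V Ten InT)
open Pool.Agent.Work.MP_659252_gt.Y (Path Q conf)
open Pool.Agent.Work.MP_659252_gt.SP

namespace Pool.Agent.Results.MP_659252_gt.Superposition

/-- **Superpositions of families of quadratic cones; the tangent vectors are not closed under addition.** -/
theorem result (d : ℕ) (hd : 3 ≤ d) :
    (∀ (ι : Type) [Fintype ι] (A : ι → Path d) (T : ι → ℝ), (∀ i, Solid (A i) (T i)) →
      (∀ i j, i ≠ j → ∀ s ∈ Set.Ioo 0 (T i), ∀ t ∈ Set.Ioo 0 (T j),
        ∃ x : V d, ¬(Q (A i) s x x ≤ 0 ↔ Q (A j) t x x ≤ 0)) →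
      ((∀ B : ι → ℝ → ℝ, (∀ i, Prof (T i) (B i)) →
          InT (fun x k l => ∑ i, conf (A i) (T i) (B i) x k l)) ↔
        ∀ i j, i ≠ j → Inside (A i) (T i) (A j) (T j) ∨ Inside (A j) (T j) (A i) (T i))) ∧
    ∃ h₁ h₂ : Ten d, InT h₁ ∧ InT h₂ ∧ ¬ InT (h₁ + h₂) :=
  ⟨fun ι _ A T hA hne => ⟨fun hz i j hij => nec hd ι A T hA hne hz i j hij,
    fun hch B hB => suf hd ι A T hA hch B hB⟩, nonadd hd⟩

end Pool.Agent.Results.MP_659252_gt.Superposition
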